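import Mathlib

/-!
# MP_f4c717_co: the drop of the Boolean dimension after deleting one point
-/

set_option autoImplicit false

namespace Pool.Agent.Results.MP_f4c717_co.DropTwo

open scoped Classical in
/-- `L` (a tuple of `d` strict linear orders on `X`) together with `φ` is a Boolean realizer of
size `d` of the poset `X`. -/
def IsBooleanRealizer (X : Type) [PartialOrder X] (d : ℕ) (L : Fin d → X → X → Prop)
    (φ : (Fin d → Bool) → Bool) : Prop :=
  (∀ i, IsStrictTotalOrder X (L i)) ∧
    ∀ x y : X, x ≠ y → (x < y ↔ φ (fun i => decide (L i x y)) = true)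

/-- The poset `X` has a Boolean realizer of size `d`. -/
def HasBooleanRealizer (X : Type) [PartialOrder X] (d : ℕ) : Prop :=
  ∃ (L : Fin d → X → X → Prop) (φ : (Fin d → Bool) → Bool), IsBooleanRealizer X d L φ

/-- The Boolean dimension: the least `d` for which `X` has a Boolean realizer of size `d`. -/
noncomputable def bdim (X : Type) [PartialOrder X] : ℕ :=
  sInf {d : ℕ | HasBooleanRealizer X d}

/-- The variant in which only realizers of positive size are allowed: the least `d ≥ 1` for which
`X` has a Boolean realizer of size `d`. -/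
noncomputable def bdimPos (X : Type) [PartialOrder X] : ℕ :=
  sInf {d : ℕ | 1 ≤ d ∧ HasBooleanRealizer X d}

/-! ### Strict total orders -/

section Orders

variable {X : Type}

/-- Order by block first, then by `r`. -/
def blk (β : X → ℕ) (r : X → X → Prop) : X → X → Prop :=
  fun u v => β u < β v ∨ (β u = β v ∧ r u v)

theorem sto_asymm {r : X → X → Prop} (h : IsStrictTotalOrder X r) {a b : X} (hab : r a b) :
    ¬ r b a := by
  have := h
  exact asymm_of r hab

theorem sto_total {r : X → X → Prop} (h : IsStrictTotalOrder X r) {a b : X} (hab : a ≠ b) :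
    r a b ∨ r b a := by
  have := h
  rcases trichotomous_of r a b with h | h | h
  · exact Or.inl h
  · exact absurd h hab
  · exact Or.inr h

theorem blk_sto (β : X → ℕ) {r : X → X → Prop} (h : IsStrictTotalOrder X r) :
    IsStrictTotalOrder X (blk β r) := by
  have := h
  refine { trichotomous := ?_, irrefl := ?_, trans := ?_ }
  · intro a b h1 h2
    unfold blk at h1 h2
    push Not at h1 h2
    have e : β a = β b := le_antisymm h2.1 h1.1
    by_contra hab
    rcases sto_total h hab with h' | h'
    · exact h1.2 e h'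
    · exact h2.2 e.symm h'
  · intro a h1
    rcases h1 with h1 | h1
    · exact lt_irrefl _ h1
    · exact irrefl_of r a h1.2
  · intro a b c h1 h2
    unfold blk at *
    rcases h1 with h1 | h1 <;> rcases h2 with h2 | h2
    · exact Or.inl (h1.trans h2)
    · exact Or.inl (h2.1 ▸ h1)
    · exact Or.inl (h1.1 ▸ h2)
    · exact Or.inr ⟨h1.1.trans h2.1, trans_of r h1.2 h2.2⟩

theorem swap_sto {r : X → X → Prop} (h : IsStrictTotalOrder X r) :
    IsStrictTotalOrder X (fun a b => r b a) := by
  have := h
  refine { trichotomous := ?_, irrefl := ?_, trans := ?_ }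
  · intro a b h1 h2
    by_contra hab
    rcases sto_total h hab with h' | h'
    · exact h2 h'
    · exact h1 h'
  · intro a h1
    exact irrefl_of r a h1
  · intro a b c h1 h2
    exact trans_of r h2 h1

/-- Extend a relation on `X ∖ {x}` to `X` by putting `x` at the bottom. -/
def ext (x : X) (r : {y : X // y ≠ x} → {y : X // y ≠ x} → Prop) : X → X → Prop :=
  fun u v => (u = x ∧ v ≠ x) ∨ ∃ (hu : u ≠ x) (hv : v ≠ x), r ⟨u, hu⟩ ⟨v, hv⟩

theorem ext_sto (x : X) {r : {y : X // y ≠ x} → {y : X // y ≠ x} → Prop}
    (h : IsStrictTotalOrder {y : X // y ≠ x} r) : IsStrictTotalOrder X (ext x r) := by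
  have := h
  refine { trichotomous := ?_, irrefl := ?_, trans := ?_ }
  · intro a b h1 h2
    unfold ext at h1 h2
    by_contra hab
    by_cases ha : a = x
    · exact h1 (Or.inl ⟨ha, fun hb => hab (ha.trans hb.symm)⟩)
    · by_cases hb : b = x
      · exact h2 (Or.inl ⟨hb, ha⟩)
      · have : (⟨a, ha⟩ : {y : X // y ≠ x}) ≠ ⟨b, hb⟩ := fun e => hab (congrArg Subtype.val e)
        rcases sto_total h this with h' | h'
        · exact h1 (Or.inr ⟨ha, hb, h'⟩)
        · exact h2 (Or.inr ⟨hb, ha, h'⟩)
  · intro a h1
    rcases h1 with h1 | ⟨h1, h2, h3⟩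
    · exact h1.2 h1.1
    · exact irrefl_of r _ h3
  · intro a b c h1 h2
    rcases h1 with h1 | ⟨ha, hb, h1⟩ <;> rcases h2 with h2 | ⟨hb', hc, h2⟩
    · exact absurd h2.1 h1.2
    · exact Or.inl ⟨h1.1, hc⟩
    · exact absurd h2.1 hb
    · exact Or.inr ⟨ha, hc, trans_of r h1 h2⟩

theorem ext_bot (x : X) (r : {y : X // y ≠ x} → {y : X // y ≠ x} → Prop) {b : X} (hb : b ≠ x) :
    ext x r x b := Or.inl ⟨rfl, hb⟩

theorem ext_iff (x : X) (r : {y : X // y ≠ x} → {y : X // y ≠ x} → Prop) {a b : X} (ha : a ≠ x)
    (hb : b ≠ x) : ext x r a b ↔ r ⟨a, ha⟩ ⟨b, hb⟩ := by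
  constructor
  · rintro (h | ⟨_, _, h⟩)
    · exact absurd h.1 ha
    · exact h
  · intro h
    exact Or.inr ⟨ha, hb, h⟩

end Orders

/-! ### The step -/

section Step

variable {X : Type} [PartialOrder X]

open scoped Classical in
/-- The gluing step: `d` orders with `x` at the bottom and two further orders. -/
theorem core (x : X) (d : ℕ) (L : Fin d → X → X → Prop) (φ : (Fin d → Bool) → Bool)
    (hL : ∀ i, IsStrictTotalOrder X (L i))
    (hbot : ∀ i, ∀ b, b ≠ x → L i x b)
    (hφ : ∀ a b : X, a ≠ x → b ≠ x → a ≠ b →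
      (a < b ↔ φ (fun i => decide (L i a b)) = true))
    (M₁ M₂ : X → X → Prop) (h₁ : IsStrictTotalOrder X M₁) (h₂ : IsStrictTotalOrder X M₂)
    (hU : ∀ b, x < b → M₁ x b ∧ M₂ x b)
    (hD : ∀ b, b < x → M₁ b x ∧ M₂ b x)
    (hI : ∀ b, b ≠ x → ¬ x < b → ¬ b < x → M₁ b x ∧ M₂ x b)
    (hc : ∀ a b : X, a ≠ x → b ≠ x → a ≠ b →
      ((∀ i, L i a b) ∨ (∀ i, ¬ L i a b)) → (a < b ↔ M₁ a b ∧ M₂ a b)) :
    HasBooleanRealizer X (d + 2) := by
  refine ⟨Fin.cons M₁ (Fin.cons M₂ L), fun q =>
    if (∀ i : Fin d, q i.succ.succ = true) ∨ (∀ i : Fin d, q i.succ.succ = false) then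
      (q 0 && q 1) else φ (fun i => q i.succ.succ), ?_, ?_⟩
  · intro i
    refine Fin.cases ?_ (fun j => ?_) i
    · exact h₁
    · refine Fin.cases ?_ (fun k => ?_) j
      · exact h₂
      · exact hL k
  · intro u v huv
    have e0 : (Fin.cons M₁ (Fin.cons M₂ L) : Fin (d + 2) → X → X → Prop) 0 = M₁ := rfl
    have e1 : (Fin.cons M₁ (Fin.cons M₂ L) : Fin (d + 2) → X → X → Prop) 1 = M₂ := rfl
    have e2 : ∀ i : Fin d,
        (Fin.cons M₁ (Fin.cons M₂ L) : Fin (d + 2) → X → X → Prop) i.succ.succ = L i :=
      fun i => rfl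
    simp only [e0, e1, e2]
    by_cases hu : u = x
    · subst hu
      have hv : v ≠ u := Ne.symm huv
      have hcond : (∀ i : Fin d, decide (L i u v) = true) ∨
          (∀ i : Fin d, decide (L i u v) = false) :=
        Or.inl (fun i => by simpa using hbot i v hv)
      rw [if_pos hcond]
      simp only [Bool.and_eq_true, decide_eq_true_eq]
      constructor
      · intro h
        exact hU v h
      · rintro ⟨g1, g2⟩
        by_contra hn
        by_cases hvx : v < u
        · exact sto_asymm h₁ g1 (hD v hvx).1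
        · exact sto_asymm h₁ g1 (hI v hv hn hvx).1
    · by_cases hv : v = x
      · subst hv
        have hcond : (∀ i : Fin d, decide (L i u v) = true) ∨
            (∀ i : Fin d, decide (L i u v) = false) :=
          Or.inr (fun i => by simpa using sto_asymm (hL i) (hbot i u hu))
        rw [if_pos hcond]
        simp only [Bool.and_eq_true, decide_eq_true_eq]
        constructor
        · intro h
          exact hD u h
        · rintro ⟨g1, g2⟩
          by_contra hn
          by_cases hvx : v < u
          · exact sto_asymm h₁ g1 (hU u hvx).1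
          · exact sto_asymm h₂ g2 (hI u hu hvx hn).2
      · by_cases hcond : (∀ i : Fin d, decide (L i u v) = true) ∨
            (∀ i : Fin d, decide (L i u v) = false)
        · rw [if_pos hcond]
          simp only [Bool.and_eq_true, decide_eq_true_eq]
          apply hc u v hu hv huv
          rcases hcond with h | h
          · exact Or.inl (fun i => by simpa using h i)
          · exact Or.inr (fun i => by simpa using h i)
        · rw [if_neg hcond]
          exact hφ u v hu hv huv

/-- If `X ∖ {x}` has a Boolean realizer of size `d`, then `X` has one of size `d + 2`. -/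
theorem step (x : X) (d : ℕ) (h : HasBooleanRealizer {y : X // y ≠ x} d) :
    HasBooleanRealizer X (d + 2) := by
  classical
  obtain ⟨L, φ, hL, hφ⟩ := h
  have hL' : ∀ i, IsStrictTotalOrder X (ext x (L i)) := fun i => ext_sto x (hL i)
  have hbot : ∀ i, ∀ b, b ≠ x → ext x (L i) x b := fun i b hb => ext_bot x (L i) hb
  have hφ' : ∀ a b : X, a ≠ x → b ≠ x → a ≠ b →
      (a < b ↔ φ (fun i => decide (ext x (L i) a b)) = true) := by
    intro a b ha hb hab
    have h1 := hφ ⟨a, ha⟩ ⟨b, hb⟩ (fun e => hab (congrArg Subtype.val e))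
    have h2 : (fun i => decide (ext x (L i) a b)) =
        (fun i => decide (L i ⟨a, ha⟩ ⟨b, hb⟩)) := by
      funext i
      rw [decide_eq_decide]
      exact ext_iff x (L i) ha hb
    rw [h2, ← h1]
    exact Iff.rfl
  -- truth value on constant patterns
  have hct : ∀ a b : X, a ≠ x → b ≠ x → a ≠ b → (∀ i, ext x (L i) a b) →
      (a < b ↔ φ (fun _ => true) = true) := by
    intro a b ha hb hab h
    rw [hφ' a b ha hb hab]
    have : (fun i => decide (ext x (L i) a b)) = (fun _ => true) := by
      funext i
      simpa using h i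
    rw [this]
  have hcf : ∀ a b : X, a ≠ x → b ≠ x → a ≠ b → (∀ i, ¬ ext x (L i) a b) →
      (a < b ↔ φ (fun _ => false) = true) := by
    intro a b ha hb hab h
    rw [hφ' a b ha hb hab]
    have : (fun i => decide (ext x (L i) a b)) = (fun _ => false) := by
      funext i
      simpa using h i
    rw [this]
  have hflip : ∀ a b : X, a ≠ b → (∀ i, ¬ ext x (L i) a b) → (∀ i, ext x (L i) b a) := by
    intro a b hab h i
    rcases sto_total (hL' i) hab with h' | h'
    · exact absurd h' (h i)
    · exact h'
  have hflip' : ∀ a b : X, (∀ i, ext x (L i) a b) → (∀ i, ¬ ext x (L i) b a) := by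
    intro a b h i
    exact sto_asymm (hL' i) (h i)
  by_cases hB : ∀ a b : X, a ≠ x → b ≠ x → a ≠ b →
      ((∀ i, ext x (L i) a b) ∨ (∀ i, ¬ ext x (L i) a b)) → ¬ a < b
  · -- no comparable pair has a constant pattern
    have hs : IsStrictTotalOrder X (WellOrderingRel : X → X → Prop) := inferInstance
    let β₁ : X → ℕ := fun u => if u = x then 2 else if x < u then 3 else if u < x then 1 else 0
    let β₂ : X → ℕ := fun u => if u = x then 1 else if x < u then 2 else if u < x then 0 else 3
    have b1x : β₁ x = 2 := by simp [β₁]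
    have b2x : β₂ x = 1 := by simp [β₂]
    have b1U : ∀ b, x < b → β₁ b = 3 := fun b hb => by simp [β₁, hb.ne', hb]
    have b2U : ∀ b, x < b → β₂ b = 2 := fun b hb => by simp [β₂, hb.ne', hb]
    have b1D : ∀ b, b < x → β₁ b = 1 := fun b hb => by simp [β₁, hb.ne, hb, hb.asymm]
    have b2D : ∀ b, b < x → β₂ b = 0 := fun b hb => by simp [β₂, hb.ne, hb, hb.asymm]
    have b1I : ∀ b, b ≠ x → ¬ x < b → ¬ b < x → β₁ b = 0 := fun b h1 h2 h3 => by
      simp [β₁, h1, h2, h3]
    have b2I : ∀ b, b ≠ x → ¬ x < b → ¬ b < x → β₂ b = 3 := fun b h1 h2 h3 => by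
      simp [β₂, h1, h2, h3]
    refine core x d (fun i => ext x (L i)) φ hL' hbot hφ' (blk β₁ WellOrderingRel)
      (blk β₂ (fun a b => WellOrderingRel b a)) (blk_sto β₁ hs) (blk_sto β₂ (swap_sto hs))
      ?_ ?_ ?_ ?_
    · intro b hb
      exact ⟨Or.inl (by rw [b1x, b1U b hb]; norm_num), Or.inl (by rw [b2x, b2U b hb]; norm_num)⟩
    · intro b hb
      exact ⟨Or.inl (by rw [b1x, b1D b hb]; norm_num), Or.inl (by rw [b2x, b2D b hb]; norm_num)⟩
    · intro b h1 h2 h3
      exact ⟨Or.inl (by rw [b1x, b1I b h1 h2 h3]; norm_num),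
        Or.inl (by rw [b2x, b2I b h1 h2 h3]; norm_num)⟩
    · intro a b ha hb hab hconst
      have hn : ¬ a < b := hB a b ha hb hab hconst
      have hconst' : (∀ i, ext x (L i) b a) ∨ (∀ i, ¬ ext x (L i) b a) := by
        rcases hconst with h | h
        · exact Or.inr (hflip' a b h)
        · exact Or.inl (hflip a b hab h)
      have hn' : ¬ b < a := hB b a hb ha hab.symm hconst'
      refine ⟨fun h => absurd h hn, ?_⟩
      rintro ⟨g1, g2⟩
      exfalso
      unfold blk at g1 g2
      have key : (β₁ a = β₁ b ∧ β₂ a = β₂ b) ∨ (β₁ a < β₁ b ∧ β₂ b < β₂ a) ∨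
          (β₁ b < β₁ a ∧ β₂ a < β₂ b) := by
        by_cases aU : x < a
        · have h1 := b1U a aU
          have h2 := b2U a aU
          by_cases bU : x < b
          · left; rw [h1, h2, b1U b bU, b2U b bU]; exact ⟨rfl, rfl⟩
          · by_cases bD : b < x
            · exact absurd (bD.trans aU) hn'
            · right; right
              rw [h1, h2, b1I b hb bU bD, b2I b hb bU bD]; norm_num
        · by_cases aD : a < x
          · have h1 := b1D a aD
            have h2 := b2D a aD
            by_cases bU : x < b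
            · exact absurd (aD.trans bU) hn
            · by_cases bD : b < x
              · left; rw [h1, h2, b1D b bD, b2D b bD]; exact ⟨rfl, rfl⟩
              · right; right
                rw [h1, h2, b1I b hb bU bD, b2I b hb bU bD]; norm_num
          · have h1 := b1I a ha aU aD
            have h2 := b2I a ha aU aD
            by_cases bU : x < b
            · right; left
              rw [h1, h2, b1U b bU, b2U b bU]; norm_num
            · by_cases bD : b < x
              · right; left
                rw [h1, h2, b1D b bD, b2D b bD]; norm_num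
              · left; rw [h1, h2, b1I b hb bU bD, b2I b hb bU bD]; exact ⟨rfl, rfl⟩
      rcases key with ⟨k1, k2⟩ | ⟨k1, k2⟩ | ⟨k1, k2⟩
      · rcases g1 with g1 | g1
        · omega
        · rcases g2 with g2 | g2
          · omega
          · exact sto_asymm hs g1.2 g2.2
      · rcases g2 with g2 | g2
        · omega
        · omega
      · rcases g1 with g1 | g1
        · omega
        · omega
  · -- some comparable pair has a constant pattern
    push Not at hB
    obtain ⟨a₀, b₀, ha₀, hb₀, hab₀, hconst₀, hlt₀⟩ := hB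
    have hd : 0 < d := by
      rcases Nat.eq_zero_or_pos d with h0 | h0
      · subst h0
        exfalso
        have g1 := (hct a₀ b₀ ha₀ hb₀ hab₀ (fun i => i.elim0)).1 hlt₀
        have g2 := (hct b₀ a₀ hb₀ ha₀ hab₀.symm (fun i => i.elim0)).2 g1
        exact lt_asymm hlt₀ g2
      · exact h0
    -- a strict total order which agrees with the poset on constant pairs
    obtain ⟨s, hs, hsc⟩ : ∃ s : X → X → Prop, IsStrictTotalOrder X s ∧
        ∀ a b : X, a ≠ x → b ≠ x → a ≠ b →
          ((∀ i, ext x (L i) a b) ∨ (∀ i, ¬ ext x (L i) a b)) → (a < b ↔ s a b) := by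
      rcases hconst₀ with h0 | h0
      · have ht : φ (fun _ => true) = true := (hct a₀ b₀ ha₀ hb₀ hab₀ h0).1 hlt₀
        refine ⟨ext x (L ⟨0, hd⟩), hL' _, ?_⟩
        intro a b ha hb hab hconst
        rcases hconst with h | h
        · exact ⟨fun _ => h _, fun _ => (hct a b ha hb hab h).2 ht⟩
        · have h' := hflip a b hab h
          have hba : b < a := (hct b a hb ha hab.symm h').2 ht
          exact ⟨fun h'' => absurd h'' hba.asymm, fun h'' => absurd h'' (h _)⟩
      · have ht : φ (fun _ => false) = true := (hcf a₀ b₀ ha₀ hb₀ hab₀ h0).1 hlt₀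
        refine ⟨fun a b => ext x (L ⟨0, hd⟩) b a, swap_sto (hL' _), ?_⟩
        intro a b ha hb hab hconst
        rcases hconst with h | h
        · have h' := hflip' a b h
          have hba : b < a := (hcf b a hb ha hab.symm h').2 ht
          exact ⟨fun h'' => absurd h'' hba.asymm, fun h'' => absurd h'' (h' _)⟩
        · exact ⟨fun _ => hflip a b hab h _, fun _ => (hcf a b ha hb hab h).2 ht⟩
    let β₁ : X → ℕ := fun u => if u = x then 1 else if x < u then 2 else 0
    let β₂ : X → ℕ := fun u => if u = x then 1 else if u < x then 0 else 2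
    have b1x : β₁ x = 1 := by simp [β₁]
    have b2x : β₂ x = 1 := by simp [β₂]
    have b1U : ∀ b, x < b → β₁ b = 2 := fun b hb => by simp [β₁, hb.ne', hb]
    have b1N : ∀ b, b ≠ x → ¬ x < b → β₁ b = 0 := fun b h1 h2 => by simp [β₁, h1, h2]
    have b2D : ∀ b, b < x → β₂ b = 0 := fun b hb => by simp [β₂, hb.ne, hb]
    have b2N : ∀ b, b ≠ x → ¬ b < x → β₂ b = 2 := fun b h1 h2 => by simp [β₂, h1, h2]
    have hmono : ∀ a b : X, a ≠ x → b ≠ x → a < b → s a b → blk β₁ s a b ∧ blk β₂ s a b := by
      intro a b ha hb hab hsab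
      constructor
      · by_cases aU : x < a
        · right
          exact ⟨by rw [b1U a aU, b1U b (aU.trans hab)], hsab⟩
        · by_cases bU : x < b
          · left; rw [b1N a ha aU, b1U b bU]; norm_num
          · right
            exact ⟨by rw [b1N a ha aU, b1N b hb bU], hsab⟩
      · by_cases bD : b < x
        · right
          exact ⟨by rw [b2D b bD, b2D a (hab.trans bD)], hsab⟩
        · by_cases aD : a < x
          · left; rw [b2D a aD, b2N b hb bD]; norm_num
          · right
            exact ⟨by rw [b2N a ha aD, b2N b hb bD], hsab⟩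
    refine core x d (fun i => ext x (L i)) φ hL' hbot hφ' (blk β₁ s) (blk β₂ s)
      (blk_sto β₁ hs) (blk_sto β₂ hs) ?_ ?_ ?_ ?_
    · intro b hb
      exact ⟨Or.inl (by rw [b1x, b1U b hb]; norm_num),
        Or.inl (by rw [b2x, b2N b hb.ne' hb.asymm]; norm_num)⟩
    · intro b hb
      exact ⟨Or.inl (by rw [b1x, b1N b hb.ne hb.asymm]; norm_num),
        Or.inl (by rw [b2x, b2D b hb]; norm_num)⟩
    · intro b h1 h2 h3
      exact ⟨Or.inl (by rw [b1x, b1N b h1 h2]; norm_num),
        Or.inl (by rw [b2x, b2N b h1 h3]; norm_num)⟩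
    · intro a b ha hb hab hconst
      have hc1 := hsc a b ha hb hab hconst
      have hconst' : (∀ i, ext x (L i) b a) ∨ (∀ i, ¬ ext x (L i) b a) := by
        rcases hconst with h | h
        · exact Or.inr (hflip' a b h)
        · exact Or.inl (hflip a b hab h)
      have hc2 := hsc b a hb ha hab.symm hconst'
      constructor
      · intro h
        exact hmono a b ha hb h (hc1.1 h)
      · rintro ⟨g1, _⟩
        rcases sto_total hs hab with h | h
        · exact hc1.2 h
        · exact absurd g1 (sto_asymm (blk_sto β₁ hs) (hmono b a hb ha (hc2.2 h) h).1)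

end Step

/-! ### Existence of realizers and the upper bound -/

theorem exists_pos (n : ℕ) : ∀ (X : Type) [Finite X] [PartialOrder X], Nat.card X = n →
    ∃ d, 1 ≤ d ∧ HasBooleanRealizer X d := by
  induction n with
  | zero =>
    intro X _ _ h
    have : IsEmpty X := by
      rcases Nat.card_eq_zero.1 h with h | h
      · exact h
      · exact absurd h (not_infinite_iff_finite.2 inferInstance)
    exact ⟨1, le_rfl, fun _ => WellOrderingRel, fun _ => true, fun _ => inferInstance,
      fun x => isEmptyElim x⟩
  | succ n ih =>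
    intro X _ _ h
    have : Nonempty X := by
      by_contra hne
      rw [not_nonempty_iff] at hne
      rw [Nat.card_of_isEmpty] at h
      omega
    obtain ⟨x⟩ := ‹Nonempty X›
    have hcard : Nat.card {y : X // y ≠ x} = n := by
      classical
      have := Fintype.ofFinite X
      have h1 : Fintype.card {y : X // y ≠ x} = Fintype.card X - 1 := by
        rw [Fintype.card_subtype_compl]
        simp
      rw [Nat.card_eq_fintype_card] at h ⊢
      omega
    obtain ⟨d, hd, hr⟩ := ih {y : X // y ≠ x} hcard
    exact ⟨d + 2, by omega, step x d hr⟩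

theorem bdim_spec (X : Type) [Finite X] [PartialOrder X] : HasBooleanRealizer X (bdim X) := by
  obtain ⟨d, _, h⟩ := exists_pos (Nat.card X) X rfl
  exact Nat.sInf_mem (s := {d : ℕ | HasBooleanRealizer X d}) ⟨d, h⟩

theorem bdimPos_spec (X : Type) [Finite X] [PartialOrder X] :
    1 ≤ bdimPos X ∧ HasBooleanRealizer X (bdimPos X) := by
  obtain ⟨d, h1, h⟩ := exists_pos (Nat.card X) X rfl
  exact Nat.sInf_mem (s := {d : ℕ | 1 ≤ d ∧ HasBooleanRealizer X d}) ⟨d, h1, h⟩

theorem bdim_le (X : Type) [Finite X] [PartialOrder X] (x : X) :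
    bdim X ≤ bdim {y : X // y ≠ x} + 2 :=
  Nat.sInf_le (step x _ (bdim_spec {y : X // y ≠ x}))

theorem bdimPos_le (X : Type) [Finite X] [PartialOrder X] (x : X) :
    bdimPos X ≤ bdimPos {y : X // y ≠ x} + 2 :=
  Nat.sInf_le (s := {d : ℕ | 1 ≤ d ∧ HasBooleanRealizer X d})
    ⟨by have := (bdimPos_spec {y : X // y ≠ x}).1; omega,
      step x _ (bdimPos_spec {y : X // y ≠ x}).2⟩

/-! ### The example: one point below two incomparable points -/

/-- The three points of the example. -/
inductive V : Type
  | x | a | b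
  deriving DecidableEq

/-- The number of a point of the example. -/
def V.num : V → Fin 3
  | .x => 0
  | .a => 1
  | .b => 2

instance : Finite V := Finite.of_injective V.num (by
  intro u v h
  cases u <;> cases v <;> first | rfl | exact absurd h (by decide))

instance : PartialOrder V where
  le u v := u = v ∨ u = V.x
  le_refl u := Or.inl rfl
  le_trans u v w h1 h2 := by
    rcases h1 with h1 | h1
    · subst h1; exact h2
    · exact Or.inr h1
  le_antisymm u v h1 h2 := by
    rcases h1 with h1 | h1
    · exact h1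
    · rcases h2 with h2 | h2
      · exact h2.symm
      · rw [h1, h2]

theorem V_lt_iff (u v : V) : u < v ↔ u = V.x ∧ v ≠ V.x := by
  rw [lt_iff_le_not_ge]
  change (u = v ∨ u = V.x) ∧ ¬ (v = u ∨ v = V.x) ↔ _
  constructor
  · rintro ⟨h1, h2⟩
    push Not at h2
    rcases h1 with h1 | h1
    · exact absurd h1.symm h2.1
    · exact ⟨h1, h2.2⟩
  · rintro ⟨h1, h2⟩
    refine ⟨Or.inr h1, ?_⟩
    rintro (h3 | h3)
    · exact h2 (h3.trans h1)
    · exact h2 h3

theorem bdim_V_del : bdim {y : V // y ≠ V.x} = 0 := by
  apply Nat.le_zero.1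
  apply Nat.sInf_le
  refine ⟨fun i => i.elim0, fun _ => false, fun i => i.elim0, ?_⟩
  intro u v _
  have : ¬ u < v := by
    intro h
    have h' : (u : V) < (v : V) := h
    exact u.2 ((V_lt_iff _ _).1 h').1
  simp [this]

theorem two_le_bdim_V : 2 ≤ bdim V := by
  by_contra hlt
  push Not at hlt
  obtain ⟨L, φ, hL, hφ⟩ := bdim_spec V
  revert L φ
  generalize bdim V = d at hlt ⊢
  intro L φ hL hφ
  have hxa : V.x < V.a := (V_lt_iff _ _).2 ⟨rfl, by decide⟩
  have hab : ¬ V.a < V.b := fun h => by
    have := ((V_lt_iff _ _).1 h).1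
    exact absurd this (by decide)
  have hba : ¬ V.b < V.a := fun h => by
    have := ((V_lt_iff _ _).1 h).1
    exact absurd this (by decide)
  have k1 := (hφ V.x V.a (by decide)).1 hxa
  have k2 := fun h => hab ((hφ V.a V.b (by decide)).2 h)
  have k3 := fun h => hba ((hφ V.b V.a (by decide)).2 h)
  interval_cases d
  · apply k2
    rw [← k1]
    congr 1
    funext i
    exact i.elim0
  · classical
    have e1 : ∀ u v : V, (fun i : Fin 1 => decide (L i u v)) = fun _ => decide (L 0 u v) := by
      intro u v
      funext i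
      rw [Subsingleton.elim i 0]
    rw [e1] at k1 k2 k3
    by_cases h1 : L 0 V.x V.a
    · rcases sto_total (hL 0) (show V.a ≠ V.b by decide) with h | h
      · apply k2
        rw [← k1]
        simp [h, h1]
      · apply k3
        rw [← k1]
        simp [h, h1]
    · rcases sto_total (hL 0) (show V.a ≠ V.b by decide) with h | h
      · apply k3
        rw [← k1]
        have := sto_asymm (hL 0) h
        simp [this, h1]
      · apply k2
        rw [← k1]
        have := sto_asymm (hL 0) h
        simp [this, h1]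

theorem bdim_V : bdim V = 2 := by
  have h1 := bdim_le V V.x
  rw [bdim_V_del] at h1
  have h2 := two_le_bdim_V
  omega

/-- The maximum `D` of `bdim(P) - bdim(P - x)`, over all finite posets `P` and all points `x` of
`P`, equals `2`. Moreover every finite poset has a Boolean realizer, so that `bdim` is the size of
a smallest one, and the drop is at most `2` also when only realizers of positive size are
allowed. -/
theorem result :
    IsGreatest {k : ℤ | ∃ (X : Type) (_ : Finite X) (_ : PartialOrder X) (x : X),
      k = (bdim X : ℤ) - (bdim {y : X // y ≠ x} : ℤ)} 2 ∧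
    (∀ (X : Type) [Finite X] [PartialOrder X],
      HasBooleanRealizer X (bdim X) ∧ 1 ≤ bdimPos X ∧ HasBooleanRealizer X (bdimPos X)) ∧
    (∀ (X : Type) [Finite X] [PartialOrder X] (x : X),
      (bdimPos X : ℤ) - (bdimPos {y : X // y ≠ x} : ℤ) ≤ 2) := by
  refine ⟨⟨⟨V, inferInstance, inferInstance, V.x, ?_⟩, ?_⟩, ?_, ?_⟩
  · rw [bdim_V, bdim_V_del]
    norm_num
  · rintro k ⟨X, iF, iP, x, rfl⟩
    have := bdim_le X x
    omega
  · intro X _ _
    exact ⟨bdim_spec X, bdimPos_spec X⟩
  · intro X _ _ x
    have := bdimPos_le X x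
    omega

end Pool.Agent.Results.MP_f4c717_co.DropTwo
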